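import Mathlib
import Pool.Agent.Y734.Stms

/-!
# The abstract data of a generic quadratic point
-/

set_option autoImplicit false

namespace Pool.Agent.Y734

open MvPolynomial

section Bil

variable {Ω : Type} [Field Ω] [Algebra ℚ Ω]

/-- value of the linear form with coefficients `G` at `P` -/
noncomputable def lf (P : Fin 3 → Ω) (G : Fin 3 → ℚ) : Ω := ∑ j, algebraMap ℚ Ω (G j) * P j

lemma lf_add (P : Fin 3 → Ω) (G H : Fin 3 → ℚ) : lf P (G + H) = lf P G + lf P H := by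
  simp only [lf, Pi.add_apply, map_add, add_mul, Finset.sum_add_distrib]

lemma lf_smul (P : Fin 3 → Ω) (r : ℚ) (G : Fin 3 → ℚ) :
    lf P (r • G) = algebraMap ℚ Ω r * lf P G := by
  simp only [lf, Pi.smul_apply, smul_eq_mul, map_mul, Finset.mul_sum, mul_assoc]

/-- the symmetric bilinear form `c (G(P) H(P') + H(P) G(P'))` -/
noncomputable def bil (c : Ω) (P P' : Fin 3 → Ω) (G H : Fin 3 → ℚ) : Ω :=
  c * (lf P G * lf P' H + lf P H * lf P' G)

lemma bil_comm (c : Ω) (P P' : Fin 3 → Ω) (G H : Fin 3 → ℚ) :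
    bil c P P' G H = bil c P P' H G := by
  unfold bil; ring

lemma bil_swap (c : Ω) (P P' : Fin 3 → Ω) (G H : Fin 3 → ℚ) :
    bil c P' P G H = bil c P P' G H := by
  unfold bil; ring

lemma bil_add_left (c : Ω) (P P' : Fin 3 → Ω) (G G' H : Fin 3 → ℚ) :
    bil c P P' (G + G') H = bil c P P' G H + bil c P P' G' H := by
  unfold bil; rw [lf_add, lf_add]; ring

lemma bil_smul_left (c : Ω) (P P' : Fin 3 → Ω) (r : ℚ) (G H : Fin 3 → ℚ) :
    bil c P P' (r • G) H = r • bil c P P' G H := by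
  unfold bil; rw [lf_smul, lf_smul, Algebra.smul_def]; ring

lemma bil_add_right (c : Ω) (P P' : Fin 3 → Ω) (G H H' : Fin 3 → ℚ) :
    bil c P P' G (H + H') = bil c P P' G H + bil c P P' G H' := by
  unfold bil; rw [lf_add, lf_add]; ring

lemma bil_smul_right (c : Ω) (P P' : Fin 3 → Ω) (r : ℚ) (G H : Fin 3 → ℚ) :
    bil c P P' G (r • H) = r • bil c P P' G H := by
  unfold bil; rw [lf_smul, lf_smul, Algebra.smul_def]; ring

/-- `bil` as a bilinear map -/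
noncomputable def bilL (c : Ω) (P P' : Fin 3 → Ω) :
    (Fin 3 → ℚ) →ₗ[ℚ] (Fin 3 → ℚ) →ₗ[ℚ] Ω :=
  LinearMap.mk₂ ℚ (bil c P P') (bil_add_left c P P') (bil_smul_left c P P')
    (bil_add_right c P P') (bil_smul_right c P P')

@[simp] lemma bilL_apply (c : Ω) (P P' : Fin 3 → Ω) (G H : Fin 3 → ℚ) :
    bilL c P P' G H = bil c P P' G H := rfl

/-- the `ℚ`-space spanned by the entries of the matrix -/
def A1 (c : Ω) (P P' : Fin 3 → Ω) : Submodule ℚ Ω :=
  Submodule.span ℚ {y | ∃ G H, y = bil c P P' G H}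

lemma bil_mem (c : Ω) (P P' : Fin 3 → Ω) (G H : Fin 3 → ℚ) : bil c P P' G H ∈ A1 c P P' :=
  Submodule.subset_span ⟨G, H, rfl⟩

lemma A1_swap (c : Ω) (P P' : Fin 3 → Ω) : A1 c P' P = A1 c P P' := by
  unfold A1
  congr 1
  ext y
  simp only [Set.mem_setOf_eq, bil_swap c P P']

end Bil

/-- The data of a generic point of degree two: `P`, `P'` are the point and its conjugate, `V` is the
set of places, `Lev v k y a` says that `y`, a form of degree `k` in the entries of the matrix, has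
weight at least `a` at `v`, and `LP v G a`, `LP' v G a` say that the linear form `G` has weight at
least `a` at `v` at the two points. -/
structure HD (V : Type) [Fintype V] {q : ℕ} (H : Fin q → Fin 3 → ℚ) (Ω : Type) [Field Ω]
    [Algebra ℚ Ω] where
  P : Fin 3 → Ω
  P' : Fin 3 → Ω
  c : Ω
  c_ne : c ≠ 0
  gen : ∀ (n : ℕ) (Φ : MvPolynomial (Fin 3) ℚ), Φ.IsHomogeneous n → Φ ≠ 0 → aeval P Φ ≠ 0
  gen' : ∀ (n : ℕ) (Φ : MvPolynomial (Fin 3) ℚ), Φ.IsHomogeneous n → Φ ≠ 0 → aeval P' Φ ≠ 0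
  Lev : V → ℕ → Ω → ℝ → Prop
  lev_one : ∀ v, Lev v 0 1 0
  lev_mul : ∀ v k l x y a b, Lev v k x a → Lev v l y b → Lev v (k + l) (x * y) (a + b)
  lev_mem : ∀ v y, y ∈ A1 c P P' → Lev v 1 y 0
  LP : V → (Fin 3 → ℚ) → ℝ → Prop
  LP' : V → (Fin 3 → ℚ) → ℝ → Prop
  lp_zero : ∀ v G, LP v G 0
  lp_zero' : ∀ v G, LP' v G 0
  lp_lin : ∀ v G G' (r s : ℚ) a, LP v G a → LP v G' a → LP v (r • G + s • G') a
  lp_lin' : ∀ v G G' (r s : ℚ) a, LP' v G a → LP' v G' a → LP' v (r • G + s • G') a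
  lp_mono : ∀ v G a b, b ≤ a → LP v G a → LP v G b
  lp_mono' : ∀ v G a b, b ≤ a → LP' v G a → LP' v G b
  lp_three : ∀ v (G : Fin 3 → Fin 3 → ℚ) a, LinearIndependent ℚ G → (∀ i, LP v (G i) a) → a ≤ 0
  lp_three' : ∀ v (G : Fin 3 → Fin 3 → ℚ) a, LinearIndependent ℚ G → (∀ i, LP' v (G i) a) → a ≤ 0
  pair : ∀ v G G' a a' b b', LP v G a → LP' v G a' → LP v G' b → LP' v G' b' →
    Lev v 1 (bil c P P' G G') (min (a + b') (b + a'))
  α : V → Fin q → ℝ
  α' : V → Fin q → ℝ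
  α_nonneg : ∀ v i, 0 ≤ α v i
  α_nonneg' : ∀ v i, 0 ≤ α' v i
  lp_α : ∀ v i, LP v (H i) (α v i)
  lp_α' : ∀ v i, LP' v (H i) (α' v i)
  sst : ∀ (k : ℕ) (W : Submodule ℚ Ω), 1 ≤ k → W ≤ A1 c P P' ^ k → ∀ (ι : V → Type)
    [∀ v, Fintype (ι v)] (b : ∀ v, ι v → Ω) (w : ∀ v, ι v → ℝ),
    (∀ v, Fintype.card (ι v) = Module.finrank ℚ W) → (∀ v, LinearIndependent ℚ (b v)) →
    (∀ v i, b v i ∈ W) → (∀ v i, Lev v k (b v i) (w v i)) →
    ∑ v, ∑ i, w v i ≤ k * Module.finrank ℚ W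

/-- exchange of the point and its conjugate -/
def HD.swap {V : Type} [Fintype V] {q : ℕ} {H : Fin q → Fin 3 → ℚ} {Ω : Type} [Field Ω]
    [Algebra ℚ Ω] (D : HD V H Ω) : HD V H Ω where
  P := D.P'
  P' := D.P
  c := D.c
  c_ne := D.c_ne
  gen := D.gen'
  gen' := D.gen
  Lev := D.Lev
  lev_one := D.lev_one
  lev_mul := D.lev_mul
  lev_mem := fun v y hy => D.lev_mem v y (by rwa [A1_swap] at hy)
  LP := D.LP'
  LP' := D.LP
  lp_zero := D.lp_zero'
  lp_zero' := D.lp_zero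
  lp_lin := D.lp_lin'
  lp_lin' := D.lp_lin
  lp_mono := D.lp_mono'
  lp_mono' := D.lp_mono
  lp_three := D.lp_three'
  lp_three' := D.lp_three
  pair := fun v G G' a a' b b' h1 h2 h3 h4 => by
    rw [bil_swap]
    have := D.pair v G G' a' a b' b h2 h1 h4 h3
    rwa [min_comm, add_comm a b', add_comm b a']
  α := D.α'
  α' := D.α
  α_nonneg := D.α_nonneg'
  α_nonneg' := D.α_nonneg
  lp_α := D.lp_α'
  lp_α' := D.lp_α
  sst := fun k W hk hW => D.sst k W hk (by rwa [A1_swap] at hW)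

/-- general position of the lines -/
def GenPos {q : ℕ} (H : Fin q → Fin 3 → ℚ) : Prop :=
  ∀ i j k : Fin q, i ≠ j → i ≠ k → j ≠ k → LinearIndependent ℚ ![H i, H j, H k]

/-- The abstract main theorem. -/
def AbsStmt : Prop :=
  ∀ (V : Type) [Fintype V] (q : ℕ) (_ : 4 ≤ q) (H : Fin q → Fin 3 → ℚ) (_ : GenPos H) (Ω : Type)
    [Field Ω] [Algebra ℚ Ω] (D : HD V H Ω), ∑ v, ∑ i, (D.α v i + D.α' v i) ≤ 6

end Pool.Agent.Y734
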