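import Mathlib
import Pool.Agent.Y734.Abs.Defs

/-!
# Algebra of the values `bil G H`
-/

set_option autoImplicit false

namespace Pool.Agent.Y734

open MvPolynomial

section

variable {Ω : Type} [Field Ω] [Algebra ℚ Ω]

/-- the linear form as a polynomial -/
noncomputable def lp (G : Fin 3 → ℚ) : MvPolynomial (Fin 3) ℚ := ∑ j, C (G j) * X j

lemma aeval_lp (P : Fin 3 → Ω) (G : Fin 3 → ℚ) : aeval P (lp G) = lf P G := by
  simp [lp, lf]

lemma eval_lp (x : Fin 3 → ℚ) (G : Fin 3 → ℚ) : eval x (lp G) = ∑ j, G j * x j := by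
  simp [lp]

lemma lp_hom (G : Fin 3 → ℚ) : (lp G).IsHomogeneous 1 := by
  unfold lp
  refine IsHomogeneous.sum _ _ _ fun j _ => ?_
  have := (isHomogeneous_C (Fin 3) (G j)).mul (isHomogeneous_X ℚ j)
  simpa using this

lemma lp_ne {G : Fin 3 → ℚ} (hG : G ≠ 0) : lp G ≠ 0 := by
  obtain ⟨j, hj⟩ := Function.ne_iff.1 hG
  intro h
  have := congrArg (eval (Pi.single j 1)) h
  rw [eval_lp] at this
  simp [Pi.single_apply] at this
  exact hj this

/-- the generic point is on no rational line -/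
lemma lf_ne {P : Fin 3 → Ω}
    (gen : ∀ (n : ℕ) (Φ : MvPolynomial (Fin 3) ℚ), Φ.IsHomogeneous n → Φ ≠ 0 → aeval P Φ ≠ 0)
    {G : Fin 3 → ℚ} (hG : G ≠ 0) : lf P G ≠ 0 := by
  rw [← aeval_lp]
  exact gen 1 _ (lp_hom G) (lp_ne hG)

lemma bil_self_ne {c : Ω} {P P' : Fin 3 → Ω} (hc : c ≠ 0)
    (gen : ∀ (n : ℕ) (Φ : MvPolynomial (Fin 3) ℚ), Φ.IsHomogeneous n → Φ ≠ 0 → aeval P Φ ≠ 0)
    (gen' : ∀ (n : ℕ) (Φ : MvPolynomial (Fin 3) ℚ), Φ.IsHomogeneous n → Φ ≠ 0 → aeval P' Φ ≠ 0)
    {G : Fin 3 → ℚ} (hG : G ≠ 0) : bil c P P' G G ≠ 0 := by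
  have h2 : (2 : Ω) ≠ 0 := by
    have : CharZero Ω := algebraRat.charZero Ω
    exact two_ne_zero
  have h : bil c P P' G G = 2 * (c * (lf P G * lf P' G)) := by unfold bil; ring
  rw [h]
  exact mul_ne_zero h2 (mul_ne_zero hc (mul_ne_zero (lf_ne gen hG) (lf_ne gen' hG)))

/-- two independent linear forms: there is a point where the first vanishes and the second does
not -/
lemma exists_point {G H : Fin 3 → ℚ} (h : LinearIndependent ℚ ![G, H]) :
    ∃ x : Fin 3 → ℚ, ∑ j, G j * x j = 0 ∧ ∑ j, H j * x j ≠ 0 := by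
  have hw : crossProduct G H ≠ 0 := crossProduct_ne_zero_iff_linearIndependent.2 h
  refine ⟨crossProduct G (crossProduct G H), ?_, ?_⟩
  · simp [cross_apply, Fin.sum_univ_three]
    ring
  · intro h0
    apply hw
    have hs : (crossProduct G H 0) ^ 2 + (crossProduct G H 1) ^ 2 + (crossProduct G H 2) ^ 2 = 0 := by
      have : (crossProduct G H 0) ^ 2 + (crossProduct G H 1) ^ 2 + (crossProduct G H 2) ^ 2 =
          - ∑ j, H j * (crossProduct G (crossProduct G H)) j := by
        simp [cross_apply, Fin.sum_univ_three]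
        ring
      rw [this, h0, neg_zero]
    have h0' := sq_nonneg (crossProduct G H 0)
    have h1' := sq_nonneg (crossProduct G H 1)
    have h2' := sq_nonneg (crossProduct G H 2)
    have e0 : crossProduct G H 0 = 0 := pow_eq_zero_iff (two_ne_zero) |>.1 (by linarith)
    have e1 : crossProduct G H 1 = 0 := pow_eq_zero_iff (two_ne_zero) |>.1 (by linarith)
    have e2 : crossProduct G H 2 = 0 := pow_eq_zero_iff (two_ne_zero) |>.1 (by linarith)
    funext j
    fin_cases j
    · exact e0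
    · exact e1
    · exact e2

/-- for independent `G`, `H` the three values span a space of dimension at least two -/
lemma finrank_pair {c : Ω} {P P' : Fin 3 → Ω} (hc : c ≠ 0)
    (gen : ∀ (n : ℕ) (Φ : MvPolynomial (Fin 3) ℚ), Φ.IsHomogeneous n → Φ ≠ 0 → aeval P Φ ≠ 0)
    (gen' : ∀ (n : ℕ) (Φ : MvPolynomial (Fin 3) ℚ), Φ.IsHomogeneous n → Φ ≠ 0 → aeval P' Φ ≠ 0)
    {G H : Fin 3 → ℚ} (h : LinearIndependent ℚ ![G, H]) (W : Submodule ℚ Ω)
    [FiniteDimensional ℚ W] (h1 : bil c P P' G G ∈ W) (h2 : bil c P P' G H ∈ W)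
    (h3 : bil c P P' H H ∈ W) : 2 ≤ Module.finrank ℚ W := by
  have h20 : (2 : Ω) ≠ 0 := by
    have : CharZero Ω := algebraRat.charZero Ω
    exact two_ne_zero
  by_contra hlt
  push Not at hlt
  have hG : G ≠ 0 := by
    have := h.ne_zero 0
    simpa using this
  have hu : (⟨bil c P P' G G, h1⟩ : W) ≠ 0 := by
    intro h0
    exact bil_self_ne hc gen gen' hG (congrArg Subtype.val h0)
  have hfr : Module.finrank ℚ W = 1 := by
    have : 0 < Module.finrank ℚ W := Module.finrank_pos_iff_exists_ne_zero.2 ⟨_, hu⟩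
    omega
  have hall := (finrank_eq_one_iff_of_nonzero' _ hu).1 hfr
  obtain ⟨a, ha⟩ := hall ⟨_, h2⟩
  obtain ⟨b, hb⟩ := hall ⟨_, h3⟩
  have ha' : a • bil c P P' G G = bil c P P' G H := congrArg Subtype.val ha
  have hb' : b • bil c P P' G G = bil c P P' H H := congrArg Subtype.val hb
  have hg : lf P G ≠ 0 := lf_ne gen hG
  have hg' : lf P' G ≠ 0 := lf_ne gen' hG
  rw [Algebra.smul_def] at ha' hb'
  unfold bil at ha' hb'
  have e1 : lf P G * lf P' H + lf P H * lf P' G =
      algebraMap ℚ Ω a * (2 * (lf P G * lf P' G)) := by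
    apply mul_left_cancel₀ hc
    rw [← ha']; ring
  have e2 : lf P H * lf P' H = algebraMap ℚ Ω b * (lf P G * lf P' G) := by
    apply mul_left_cancel₀ (mul_ne_zero h20 hc)
    linear_combination (-1 : Ω) * hb'
  have hΦ : aeval P (lp H ^ 2 - C (2 * a) * (lp H * lp G) + C b * lp G ^ 2) = 0 := by
    simp only [map_add, map_sub, map_mul, map_pow, aeval_lp, aeval_C]
    apply mul_left_cancel₀ hg'
    rw [mul_zero, map_ofNat]
    linear_combination (lf P H) * e1 - (lf P G) * e2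
  refine gen 2 _ ?_ ?_ hΦ
  · have k1 := (lp_hom H).pow 2
    have k2 := (lp_hom H).mul (lp_hom G)
    have k3 := (lp_hom G).pow 2
    have c2 := (isHomogeneous_C (Fin 3) (2 * a)).mul k2
    have c3 := (isHomogeneous_C (Fin 3) b).mul k3
    simp only [one_mul, zero_add] at k1 c2 c3
    exact (k1.sub c2).add c3
  · intro h0
    obtain ⟨x, hx1, hx2⟩ := exists_point h
    have := congrArg (eval x) h0
    simp only [map_add, map_sub, map_mul, map_pow, eval_lp, hx1, eval_C, map_zero, mul_zero,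
      sub_zero, zero_pow (two_ne_zero), add_zero] at this
    exact hx2 (pow_eq_zero_iff (two_ne_zero) |>.1 this)

end

end Pool.Agent.Y734
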