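import Mathlib
import Pool.Agent.Y734.Abs.Alg

/-!
# Six generators of `A1`, and the subspace theorem for partial families
-/

set_option autoImplicit false

namespace Pool.Agent.Y734

open MvPolynomial

section

variable {Ω : Type} [Field Ω] [Algebra ℚ Ω]

/-- the six products of a basis -/
noncomputable def six (c : Ω) (P P' : Fin 3 → Ω) (f : Fin 3 → Fin 3 → ℚ) : Fin 6 → Ω :=
  ![bil c P P' (f 0) (f 0), bil c P P' (f 1) (f 1), bil c P P' (f 2) (f 2),
    bil c P P' (f 0) (f 1), bil c P P' (f 0) (f 2), bil c P P' (f 1) (f 2)]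

lemma exists_coeff {f : Fin 3 → Fin 3 → ℚ} (hf : LinearIndependent ℚ f) (G : Fin 3 → ℚ) :
    ∃ a : Fin 3 → ℚ, G = a 0 • f 0 + a 1 • f 1 + a 2 • f 2 := by
  have hs : Submodule.span ℚ (Set.range f) = ⊤ :=
    hf.span_eq_top_of_card_eq_finrank (by simp)
  have hG : G ∈ Submodule.span ℚ (Set.range f) := by rw [hs]; trivial
  obtain ⟨a, ha⟩ := (Submodule.mem_span_range_iff_exists_fun ℚ).1 hG
  exact ⟨a, by rw [← ha, Fin.sum_univ_three]⟩

lemma bil_mem_of {c : Ω} {P P' : Fin 3 → Ω} {f : Fin 3 → Fin 3 → ℚ} (hf : LinearIndependent ℚ f)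
    (W : Submodule ℚ Ω) (h : ∀ i j, i ≤ j → bil c P P' (f i) (f j) ∈ W) (G H : Fin 3 → ℚ) :
    bil c P P' G H ∈ W := by
  obtain ⟨a, rfl⟩ := exists_coeff hf G
  obtain ⟨b, rfl⟩ := exists_coeff hf H
  have h' : ∀ i j, bil c P P' (f i) (f j) ∈ W := fun i j => by
    rcases le_total i j with hij | hij
    · exact h i j hij
    · rw [bil_comm]; exact h j i hij
  simp only [bil_add_left, bil_add_right, bil_smul_left, bil_smul_right]
  refine W.add_mem (W.add_mem ?_ ?_) ?_ <;>
    refine W.smul_mem _ (W.add_mem (W.add_mem ?_ ?_) ?_) <;>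
    exact W.smul_mem _ (h' _ _)

lemma A1_le_of {c : Ω} {P P' : Fin 3 → Ω} {f : Fin 3 → Fin 3 → ℚ} (hf : LinearIndependent ℚ f)
    (W : Submodule ℚ Ω) (h : ∀ i j, i ≤ j → bil c P P' (f i) (f j) ∈ W) : A1 c P P' ≤ W := by
  unfold A1
  rw [Submodule.span_le]
  rintro _ ⟨G, H, rfl⟩
  exact bil_mem_of hf W h G H

lemma A1_eq_six {c : Ω} {P P' : Fin 3 → Ω} {f : Fin 3 → Fin 3 → ℚ}
    (hf : LinearIndependent ℚ f) : A1 c P P' = Submodule.span ℚ (Set.range (six c P P' f)) := by
  refine le_antisymm (A1_le_of hf _ fun i j hij => ?_) ?_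
  · fin_cases i <;> fin_cases j <;> first
      | exact absurd hij (by decide)
      | exact Submodule.subset_span ⟨0, rfl⟩
      | exact Submodule.subset_span ⟨1, rfl⟩
      | exact Submodule.subset_span ⟨2, rfl⟩
      | exact Submodule.subset_span ⟨3, rfl⟩
      | exact Submodule.subset_span ⟨4, rfl⟩
      | exact Submodule.subset_span ⟨5, rfl⟩
  · rw [Submodule.span_le]
    rintro _ ⟨i, rfl⟩
    fin_cases i <;> exact bil_mem _ _ _ _ _

lemma linInd_single : LinearIndependent ℚ (fun i : Fin 3 => (Pi.single i 1 : Fin 3 → ℚ)) := by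
  have h := (Pi.basisFun ℚ (Fin 3)).linearIndependent
  have e : (fun i : Fin 3 => (Pi.single i 1 : Fin 3 → ℚ)) = ⇑(Pi.basisFun ℚ (Fin 3)) := by
    funext i
    rw [Pi.basisFun_apply]
  rw [e]
  exact h

instance instFinA1 (c : Ω) (P P' : Fin 3 → Ω) : FiniteDimensional ℚ (A1 c P P') := by
  rw [A1_eq_six linInd_single]
  exact FiniteDimensional.span_of_finite ℚ (Set.finite_range _)

lemma finrank_A1_le (c : Ω) (P P' : Fin 3 → Ω) : Module.finrank ℚ (A1 c P P') ≤ 6 := by
  rw [A1_eq_six linInd_single]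
  exact (finrank_range_le_card (R := ℚ) _).trans (by simp)

end

section

variable {V : Type} [Fintype V] {q : ℕ} {H : Fin q → Fin 3 → ℚ} {Ω : Type} [Field Ω] [Algebra ℚ Ω]

/-- there are independent elements of `A1` of total weight at least `T` at `v` -/
def Tot (D : HD V H Ω) (v : V) (T : ℝ) : Prop :=
  ∃ (n : ℕ) (b : Fin n → Ω) (w : Fin n → ℝ), LinearIndependent ℚ b ∧
    (∀ i, b i ∈ A1 D.c D.P D.P') ∧ (∀ i, D.Lev v 1 (b i) (w i)) ∧ T ≤ ∑ i, w i

lemma sst1 (D : HD V H Ω) (T : V → ℝ) (h : ∀ v, Tot D v (T v)) :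
    ∑ v, T v ≤ Module.finrank ℚ (A1 D.c D.P D.P') := by
  classical
  choose n b w hb hmem hlev hT using h
  set A := A1 D.c D.P D.P' with hA
  let b' : ∀ v, Fin (n v) → A := fun v i => ⟨b v i, hmem v i⟩
  have hb' : ∀ v, LinearIndependent ℚ (b' v) := fun v =>
    LinearIndependent.of_comp A.subtype (hb v)
  let B : ∀ v, Module.Basis (Fin (n v) ⊕ Module.Basis.sumExtendIndex (hb' v)) ℚ A :=
    fun v => Module.Basis.sumExtend (hb' v)
  have hfin : ∀ v, Finite (Module.Basis.sumExtendIndex (hb' v)) := fun v => by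
    have := Module.Finite.finite_basis (B v)
    exact Finite.sum_right (Fin (n v))
  have : ∀ v, Fintype (Module.Basis.sumExtendIndex (hb' v)) := fun v =>
    Fintype.ofFinite _
  have hBl : ∀ v i, B v (Sum.inl i) = b' v i := fun v i => by
    simp only [B, Module.Basis.sumExtend, Module.Basis.reindex_apply,
      Module.Basis.extend_apply_self]
    rfl
  have key := D.sst 1 A le_rfl (by rw [pow_one])
    (fun v => Fin (n v) ⊕ Module.Basis.sumExtendIndex (hb' v))
    (fun v i => (B v i : Ω)) (fun v => Sum.elim (w v) 0)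
    (fun v => by rw [Module.finrank_eq_card_basis (B v)])
    (fun v => by
      have := (B v).linearIndependent.map' A.subtype (Submodule.ker_subtype _)
      exact this)
    (fun v i => (B v i).2) (fun v i => by
      rcases i with i | i
      · rw [hBl]; exact hlev v i
      · exact D.lev_mem v _ (B v _).2)
  rw [Nat.cast_one, one_mul] at key
  refine le_trans (Finset.sum_le_sum fun v _ => ?_) key
  refine (hT v).trans (le_of_eq ?_)
  simp

end

end Pool.Agent.Y734
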