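import Mathlib
import Pool.Agent.Y734.Abs.Tot

/-!
# The two largest weights at a place, and the easy bound for `finrank A1 ≤ 3`
-/

set_option autoImplicit false

namespace Pool.Agent.Y734

lemma top_two {q : ℕ} (hq : 2 ≤ q) (α : Fin q → ℝ) (h0 : ∀ i, 0 ≤ α i)
    (h3 : ∀ i j k, i ≠ j → i ≠ k → j ≠ k → ∀ a, a ≤ α i → a ≤ α j → a ≤ α k → a ≤ 0) :
    ∃ p r : Fin q, p ≠ r ∧ α r ≤ α p ∧ (∀ i, i ≠ p → i ≠ r → α i = 0) ∧
      ∑ i, α i = α p + α r := by
  classical
  obtain ⟨p, _, hp⟩ := Finset.exists_max_image (Finset.univ : Finset (Fin q)) α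
    ⟨⟨0, by omega⟩, Finset.mem_univ _⟩
  have hne : (Finset.univ.erase p).Nonempty := by
    rw [← Finset.card_pos, Finset.card_erase_of_mem (Finset.mem_univ _), Finset.card_univ,
      Fintype.card_fin]
    omega
  obtain ⟨r, hr, hr'⟩ := Finset.exists_max_image (Finset.univ.erase p) α hne
  have hpr : p ≠ r := (Finset.ne_of_mem_erase hr).symm
  have hz : ∀ i, i ≠ p → i ≠ r → α i = 0 := by
    intro i hip hir
    refine le_antisymm (h3 p r i hpr hip.symm hir.symm (α i) (hp i (Finset.mem_univ _))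
      (hr' i (Finset.mem_erase.2 ⟨hip, Finset.mem_univ _⟩)) le_rfl) (h0 i)
  refine ⟨p, r, hpr, hp r (Finset.mem_univ _), hz, ?_⟩
  exact Finset.sum_eq_add p r hpr (fun c _ hc => hz c hc.1 hc.2)
    (fun h => absurd (Finset.mem_univ _) h) (fun h => absurd (Finset.mem_univ _) h)

section

variable {V : Type} [Fintype V] {q : ℕ} {H : Fin q → Fin 3 → ℚ} {Ω : Type} [Field Ω] [Algebra ℚ Ω]

/-- the two largest weights at the two points: `p`, `r` for `P`, `s`, `t` for `P'` -/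
structure Top (D : HD V H Ω) (v : V) (p r s t : Fin q) : Prop where
  hpr : p ≠ r
  hst : s ≠ t
  le : D.α v r ≤ D.α v p
  le' : D.α' v t ≤ D.α' v s
  zero : ∀ i, i ≠ p → i ≠ r → D.α v i = 0
  zero' : ∀ i, i ≠ s → i ≠ t → D.α' v i = 0
  sum : ∑ i, (D.α v i + D.α' v i) = D.α v p + D.α v r + (D.α' v s + D.α' v t)

lemma Top.swap {D : HD V H Ω} {v : V} {p r s t : Fin q} (h : Top D v p r s t) :
    Top D.swap v s t p r where
  hpr := h.hst
  hst := h.hpr
  le := h.le'
  le' := h.le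
  zero := h.zero'
  zero' := h.zero
  sum := by
    show ∑ i, (D.α' v i + D.α v i) = D.α' v s + D.α' v t + (D.α v p + D.α v r)
    rw [add_comm (D.α' v s + D.α' v t), ← h.sum]
    exact Finset.sum_congr rfl fun i _ => add_comm _ _

lemma linInd_three {f : Fin 3 → Fin 3 → ℚ} {G0 G1 G2 : Fin 3 → ℚ}
    (h : LinearIndependent ℚ ![G0, G1, G2]) (hf : f = ![G0, G1, G2]) : LinearIndependent ℚ f := by
  rw [hf]; exact h

lemma exists_top (hq : 4 ≤ q) (hH : GenPos H) (D : HD V H Ω) (v : V) :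
    ∃ p r s t, Top D v p r s t := by
  have key : ∀ D : HD V H Ω, ∃ p r : Fin q, p ≠ r ∧ D.α v r ≤ D.α v p ∧
      (∀ i, i ≠ p → i ≠ r → D.α v i = 0) ∧ ∑ i, D.α v i = D.α v p + D.α v r := by
    intro D
    refine top_two (by omega) (D.α v) (D.α_nonneg v) fun i j k hij hik hjk a h1 h2 h3 => ?_
    refine D.lp_three v ![H i, H j, H k] a (hH i j k hij hik hjk) fun l => ?_
    fin_cases l
    · exact D.lp_mono v _ _ _ h1 (D.lp_α v i)
    · exact D.lp_mono v _ _ _ h2 (D.lp_α v j)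
    · exact D.lp_mono v _ _ _ h3 (D.lp_α v k)
  obtain ⟨p, r, h1, h2, h3, h4⟩ := key D
  obtain ⟨s, t, h1', h2', h3', h4'⟩ := key D.swap
  refine ⟨p, r, s, t, ⟨h1, h1', h2, h2', h3, h3', ?_⟩⟩
  rw [Finset.sum_add_distrib, h4]
  congr 1

lemma lp_comb (D : HD V H Ω) (v : V) {G G' K : Fin 3 → ℚ} {a : ℝ} (h : D.LP v G a)
    (h' : D.LP v G' a) (hK : ∃ r s : ℚ, K = r • G + s • G') : D.LP v K a := by
  obtain ⟨r, s, rfl⟩ := hK
  exact D.lp_lin v _ _ _ _ _ h h'

lemma lev_self (D : HD V H Ω) (v : V) (i : Fin q) :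
    D.Lev v 1 (bil D.c D.P D.P' (H i) (H i)) (D.α v i + D.α' v i) := by
  have := D.pair v (H i) (H i) _ _ _ _ (D.lp_α v i) (D.lp_α' v i) (D.lp_α v i) (D.lp_α' v i)
  rwa [min_self] at this

lemma lev_of_P (D : HD V H Ω) (v : V) {G G' : Fin 3 → ℚ} {a : ℝ} (h : D.LP v G a)
    (h' : D.LP v G' a) : D.Lev v 1 (bil D.c D.P D.P' G G') a := by
  have := D.pair v G G' _ _ _ _ h (D.lp_zero' v G) h' (D.lp_zero' v G')
  simpa using this

lemma lev_of_P' (D : HD V H Ω) (v : V) {G G' : Fin 3 → ℚ} {a : ℝ} (h : D.LP' v G a)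
    (h' : D.LP' v G' a) : D.Lev v 1 (bil D.c D.P D.P' G G') a := by
  have := D.pair v G G' _ _ _ _ (D.lp_zero v G) h (D.lp_zero v G') h'
  simpa using this

lemma linInd_pair (hH : GenPos H) (hq : 4 ≤ q) {p r : Fin q} (hpr : p ≠ r) :
    LinearIndependent ℚ ![H p, H r] := by
  obtain ⟨k, hk⟩ : ∃ k : Fin q, k ≠ p ∧ k ≠ r := by
    by_contra hcon
    push Not at hcon
    have : (Finset.univ : Finset (Fin q)) ⊆ {p, r} := by
      intro k _
      by_cases h : k = p
      · simp [h]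
      · simp [hcon k h]
    have h1 := Finset.card_le_card this
    have h2 := Finset.card_le_two (a := p) (b := r)
    rw [Finset.card_univ, Fintype.card_fin] at h1
    omega
  have h := hH p r k hpr hk.1.symm hk.2.symm
  have h2 := h.comp (![0, 1] : Fin 2 → Fin 3) (by decide)
  have e : (![H p, H r, H k] : Fin 3 → Fin 3 → ℚ) ∘ (![0, 1] : Fin 2 → Fin 3) = ![H p, H r] := by
    funext i
    fin_cases i <;> rfl
  rwa [e] at h2

/-- weight from one element -/
lemma tot_one (D : HD V H Ω) (v : V) {y : Ω} (hy : y ≠ 0) (hm : y ∈ A1 D.c D.P D.P') {a T : ℝ}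
    (h : D.Lev v 1 y a) (hT : T ≤ a) : Tot D v T := by
  refine ⟨1, fun _ => y, fun _ => a, ?_, fun _ => hm, fun _ => h, by simpa using hT⟩
  exact LinearIndependent.of_subsingleton (0 : Fin 1) hy

/-- weight from two elements -/
lemma tot_two (D : HD V H Ω) (v : V) {y z : Ω} (hyz : LinearIndependent ℚ ![y, z])
    (hy : y ∈ A1 D.c D.P D.P') (hz : z ∈ A1 D.c D.P D.P') {a b T : ℝ}
    (h : D.Lev v 1 y a) (h' : D.Lev v 1 z b) (hT : T ≤ a + b) : Tot D v T := by
  refine ⟨2, ![y, z], ![a, b], hyz, fun i => ?_, fun i => ?_, by simpa [Fin.sum_univ_two] using hT⟩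
  · fin_cases i
    · exact hy
    · exact hz
  · fin_cases i
    · exact h
    · exact h'

/-- a generator of a space of dimension at least two not proportional to `y` -/
lemma exists_indep {y : Ω} (hy : y ≠ 0) {z0 z1 z2 : Ω}
    (h : 2 ≤ Module.finrank ℚ (Submodule.span ℚ {z0, z1, z2})) :
    ∃ z, (z = z0 ∨ z = z1 ∨ z = z2) ∧ LinearIndependent ℚ ![y, z] := by
  by_contra hcon
  push Not at hcon
  have hmem : ∀ z, (z = z0 ∨ z = z1 ∨ z = z2) → z ∈ Submodule.span ℚ {y} := by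
    intro z hz
    have h1 := hcon z hz
    rw [LinearIndependent.pair_iff' hy] at h1
    push Not at h1
    obtain ⟨a, ha⟩ := h1
    exact Submodule.mem_span_singleton.2 ⟨a, ha⟩
  have hle : Submodule.span ℚ {z0, z1, z2} ≤ Submodule.span ℚ {y} := by
    rw [Submodule.span_le]
    rintro z (rfl | rfl | rfl)
    · exact hmem _ (Or.inl rfl)
    · exact hmem _ (Or.inr (Or.inl rfl))
    · exact hmem _ (Or.inr (Or.inr rfl))
  have h1 := Submodule.finrank_mono hle
  have h2 := finrank_span_singleton (K := ℚ) hy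
  omega

/-- the bound used for `finrank A1 ≤ 3` -/
lemma tot_half (hq : 4 ≤ q) (hH : GenPos H) (D : HD V H Ω) (v : V) :
    Tot D v ((∑ i, (D.α v i + D.α' v i)) / 2) := by
  have aux : ∀ (D : HD V H Ω) (p r s t : Fin q), Top D v p r s t → D.α' v t ≤ D.α v r →
      Tot D v ((∑ i, (D.α v i + D.α' v i)) / 2) := by
    intro D p r s t h hle
    have hind := linInd_pair hH hq h.hpr
    have hne : ∀ i, H i ≠ 0 := fun i => by
      obtain ⟨j, hj⟩ : ∃ j : Fin q, i ≠ j := by
        by_cases hi : i = ⟨0, by omega⟩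
        · exact ⟨⟨1, by omega⟩, by rw [hi]; simp⟩
        · exact ⟨_, hi⟩
      have := (linInd_pair hH hq hj).ne_zero 0
      simpa using this
    have hself : ∀ i, bil D.c D.P D.P' (H i) (H i) ≠ 0 := fun i =>
      bil_self_ne D.c_ne D.gen D.gen' (hne i)
    have hfin : 2 ≤ Module.finrank ℚ (Submodule.span ℚ
        {bil D.c D.P D.P' (H p) (H p), bil D.c D.P D.P' (H p) (H r),
          bil D.c D.P D.P' (H r) (H r)}) := by
      have : FiniteDimensional ℚ (Submodule.span ℚ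
        {bil D.c D.P D.P' (H p) (H p), bil D.c D.P D.P' (H p) (H r),
          bil D.c D.P D.P' (H r) (H r)}) :=
        FiniteDimensional.span_of_finite ℚ (by simp)
      refine finrank_pair D.c_ne D.gen D.gen' hind _ ?_ ?_ ?_ <;>
        exact Submodule.subset_span (by simp)
    have hlevr : ∀ z, (z = bil D.c D.P D.P' (H p) (H p) ∨ z = bil D.c D.P D.P' (H p) (H r) ∨
        z = bil D.c D.P D.P' (H r) (H r)) → D.Lev v 1 z (D.α v r) ∧ z ∈ A1 D.c D.P D.P' := by
      have hp : D.LP v (H p) (D.α v r) := D.lp_mono v _ _ _ h.le (D.lp_α v p)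
      have hr : D.LP v (H r) (D.α v r) := D.lp_α v r
      rintro z (rfl | rfl | rfl)
      · exact ⟨lev_of_P D v hp hp, bil_mem _ _ _ _ _⟩
      · exact ⟨lev_of_P D v hp hr, bil_mem _ _ _ _ _⟩
      · exact ⟨lev_of_P D v hr hr, bil_mem _ _ _ _ _⟩
    have main : ∀ i, D.α v p + D.α' v s ≤ 2 * (D.α v i + D.α' v i) →
        Tot D v ((∑ i, (D.α v i + D.α' v i)) / 2) := by
      intro i hi
      obtain ⟨z, hz, hind⟩ := exists_indep (hself i) hfin
      refine tot_two D v hind (bil_mem _ _ _ _ _) (hlevr z hz).2 (lev_self D v i) (hlevr z hz).1 ?_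
      rw [h.sum]
      linarith
    have hp0 := D.α_nonneg' v p
    have hs0 := D.α_nonneg v s
    rcases le_total (D.α v p) (D.α' v s) with h1 | h1
    · exact main s (by linarith)
    · exact main p (by linarith)
  obtain ⟨p, r, s, t, h⟩ := exists_top hq hH D v
  rcases le_total (D.α' v t) (D.α v r) with h1 | h1
  · exact aux D p r s t h h1
  · have h2 := aux D.swap s t p r h.swap h1
    obtain ⟨n, b, w, hb, hm, hl, hT⟩ := h2
    refine ⟨n, b, w, hb, fun i => ?_, hl, ?_⟩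
    · have := hm i
      rwa [← A1_swap]
    · refine le_trans (le_of_eq ?_) hT
      congr 1
      exact Finset.sum_congr rfl fun i _ => add_comm _ _

/-- the case `finrank A1 ≤ 3` -/
lemma abs_three (hq : 4 ≤ q) (hH : GenPos H) (D : HD V H Ω)
    (h3 : Module.finrank ℚ (A1 D.c D.P D.P') ≤ 3) : ∑ v, ∑ i, (D.α v i + D.α' v i) ≤ 6 := by
  have h := sst1 D _ (fun v => tot_half hq hH D v)
  rw [← Finset.sum_div] at h
  have h3' : (Module.finrank ℚ (A1 D.c D.P D.P') : ℝ) ≤ 3 := by exact_mod_cast h3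
  linarith

end

end Pool.Agent.Y734
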