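import Mathlib
import Pool.Agent.Y734.Abs.Loc

/-!
# A basis adapted to both points
-/

set_option autoImplicit false

namespace Pool.Agent.Y734

section

variable {V : Type} [Fintype V] {q : ℕ} {H : Fin q → Fin 3 → ℚ} {Ω : Type} [Field Ω] [Algebra ℚ Ω]

/-- a basis with weights at both points; the middle vector has a small square -/
structure ComB (D : HD V H Ω) (v : V) (p s : Fin q) (f : Fin 3 → Fin 3 → ℚ) (u u' : Fin 3 → ℝ) :
    Prop where
  ind : LinearIndependent ℚ f
  lp : ∀ i, D.LP v (f i) (u i)
  lp' : ∀ i, D.LP' v (f i) (u' i)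
  nn : ∀ i, 0 ≤ u i
  nn' : ∀ i, 0 ≤ u' i
  tot : ∑ i, (D.α v i + D.α' v i) ≤ (u 0 + u' 0) + (u 1 + u' 1) + (u 2 + u' 2)
  mid : u 1 + u' 1 ≤ min (u 0 + u' 1) (u 1 + u' 0) + min (u 0 + u' 2) (u 2 + u' 0) +
    min (u 1 + u' 2) (u 2 + u' 1)
  eq : p = s → u 2 + u' 2 ≤ min (u 0 + u' 1) (u 1 + u' 0) + min (u 0 + u' 2) (u 2 + u' 0) +
    min (u 1 + u' 2) (u 2 + u' 1)
  ne : p ≠ s → f 0 = H p ∧ f 2 = H s ∧ u 0 + u' 0 ≤ D.α v p + D.α' v p ∧
    u 2 + u' 2 ≤ D.α v s + D.α' v s

lemma exists_third (hq : 4 ≤ q) (p r : Fin q) : ∃ k : Fin q, k ≠ p ∧ k ≠ r := by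
  by_contra hcon
  push Not at hcon
  have : (Finset.univ : Finset (Fin q)) ⊆ {p, r} := by
    intro k _
    by_cases h : k = p
    · simp [h]
    · simp [hcon k h]
  have h1 := Finset.card_le_card this
  have h2 := Finset.card_le_two (a := p) (b := r)
  rw [Finset.card_univ, Fintype.card_fin] at h1
  omega

lemma li3 {E : Type*} [AddCommGroup E] [Module ℚ E] {x y z : E} :
    LinearIndependent ℚ ![x, y, z] ↔
      ∀ a b c : ℚ, a • x + b • y + c • z = 0 → a = 0 ∧ b = 0 ∧ c = 0 := by
  rw [Fintype.linearIndependent_iff]
  constructor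
  · intro h a b c h0
    have := h ![a, b, c] (by simpa [Fin.sum_univ_three] using h0)
    exact ⟨this 0, this 1, this 2⟩
  · intro h g hg
    have hg' : g 0 • x + g 1 • y + g 2 • z = 0 := by simpa [Fin.sum_univ_three] using hg
    obtain ⟨h0, h1, h2⟩ := h _ _ _ hg'
    intro i
    fin_cases i
    · exact h0
    · exact h1
    · exact h2

/-- the intersection of the planes spanned by two pairs of lines -/
lemma exists_K (hH : GenPos H) {p r s t : Fin q} (hpr : p ≠ r) (hst : s ≠ t) (hps : p ≠ s)
    (hrs : r ≠ s) (htp : t ≠ p) :
    ∃ K : Fin 3 → ℚ, LinearIndependent ℚ ![H p, K, H s] ∧ (∃ a b : ℚ, K = a • H p + b • H r) ∧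
      (∃ a b : ℚ, K = a • H s + b • H t) := by
  by_cases hrt : r = t
  · subst hrt
    exact ⟨H r, hH p r s hpr hps hrs, ⟨0, 1, by simp⟩, ⟨0, 1, by simp⟩⟩
  · have hind := hH p r s hpr hps hrs
    obtain ⟨c, hc⟩ := exists_coeff hind (H t)
    have hc' : H t = c 0 • H p + c 1 • H r + c 2 • H s := hc
    have hc1 : c 1 ≠ 0 := by
      intro h0
      have h2 := li3.1 (hH p s t hps htp.symm hst) (c 0) (c 2) (-1) (by
        rw [hc', h0]; module)
      norm_num at h2
    refine ⟨c 0 • H p + c 1 • H r, ?_, ⟨_, _, rfl⟩, ⟨-c 2, 1, by rw [hc']; module⟩⟩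
    rw [li3]
    intro x y z h
    have h3 := li3.1 hind (x + y * c 0) (y * c 1) z (by rw [← h]; module)
    obtain ⟨e1, e2, e3⟩ := h3
    have e2' : y = 0 := by
      rcases mul_eq_zero.1 e2 with h | h
      · exact h
      · exact absurd h hc1
    rw [e2', zero_mul, add_zero] at e1
    exact ⟨e1, e2', e3⟩

/-- existence of the common basis -/
lemma exists_com (hq : 4 ≤ q) (hH : GenPos H) (D : HD V H Ω) (v : V) {p r s t : Fin q}
    (h : Top D v p r s t) : ∃ f u u', ComB D v p s f u u' := by
  have ha := h.le
  have ha' := h.le'
  have hb0 := D.α_nonneg v r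
  have hb0' := D.α_nonneg' v t
  have hp0 := D.α_nonneg v p
  have hs0' := D.α_nonneg' v s
  by_cases hps : p = s
  · by_cases hrt : r = t
    · obtain ⟨l, hlp, hlr⟩ := exists_third hq p r
      refine ⟨![H p, H r, H l], ![D.α v p, D.α v r, 0], ![D.α' v s, D.α' v t, 0],
        ⟨hH p r l h.hpr hlp.symm hlr.symm, ?_, ?_, ?_, ?_, ?_, ?_, ?_, ?_⟩⟩
      · intro i; fin_cases i
        · exact D.lp_α v p
        · exact D.lp_α v r
        · exact D.lp_zero v _
      · intro i; fin_cases i
        · subst hps; exact D.lp_α' v _
        · subst hrt; exact D.lp_α' v _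
        · exact D.lp_zero' v _
      · intro i; fin_cases i
        · exact hp0
        · exact hb0
        · exact le_rfl
      · intro i; fin_cases i
        · exact hs0'
        · exact hb0'
        · exact le_rfl
      · rw [h.sum]
        show _ ≤ D.α v p + D.α' v s + (D.α v r + D.α' v t) + (0 + 0)
        linarith
      · show D.α v r + D.α' v t ≤ min (D.α v p + D.α' v t) (D.α v r + D.α' v s) +
          min (D.α v p + 0) (0 + D.α' v s) + min (D.α v r + 0) (0 + D.α' v t)
        have h1 : D.α v r + D.α' v t ≤ min (D.α v p + D.α' v t) (D.α v r + D.α' v s) :=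
          le_min (by linarith) (by linarith)
        have h2 : 0 ≤ min (D.α v p + 0) (0 + D.α' v s) := le_min (by linarith) (by linarith)
        have h3 : 0 ≤ min (D.α v r + 0) (0 + D.α' v t) := le_min (by linarith) (by linarith)
        linarith
      · intro _
        show 0 + 0 ≤ min (D.α v p + D.α' v t) (D.α v r + D.α' v s) +
          min (D.α v p + 0) (0 + D.α' v s) + min (D.α v r + 0) (0 + D.α' v t)
        have h1 : 0 ≤ min (D.α v p + D.α' v t) (D.α v r + D.α' v s) :=
          le_min (by linarith) (by linarith)
        have h2 : 0 ≤ min (D.α v p + 0) (0 + D.α' v s) := le_min (by linarith) (by linarith)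
        have h3 : 0 ≤ min (D.α v r + 0) (0 + D.α' v t) := le_min (by linarith) (by linarith)
        linarith
      · intro hne; exact absurd hps hne
    · have htp : t ≠ p := by rw [hps]; exact h.hst.symm
      refine ⟨![H p, H r, H t], ![D.α v p, D.α v r, 0], ![D.α' v s, 0, D.α' v t],
        ⟨hH p r t h.hpr htp.symm hrt, ?_, ?_, ?_, ?_, ?_, ?_, ?_, ?_⟩⟩
      · intro i; fin_cases i
        · exact D.lp_α v p
        · exact D.lp_α v r
        · exact D.lp_zero v _
      · intro i; fin_cases i
        · subst hps; exact D.lp_α' v _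
        · exact D.lp_zero' v _
        · exact D.lp_α' v t
      · intro i; fin_cases i
        · exact hp0
        · exact hb0
        · exact le_rfl
      · intro i; fin_cases i
        · exact hs0'
        · exact le_rfl
        · exact hb0'
      · rw [h.sum]
        show _ ≤ D.α v p + D.α' v s + (D.α v r + 0) + (0 + D.α' v t)
        linarith
      · show D.α v r + 0 ≤ min (D.α v p + 0) (D.α v r + D.α' v s) +
          min (D.α v p + D.α' v t) (0 + D.α' v s) + min (D.α v r + D.α' v t) (0 + 0)
        have h1 : D.α v r ≤ min (D.α v p + 0) (D.α v r + D.α' v s) :=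
          le_min (by linarith) (by linarith)
        have h2 : 0 ≤ min (D.α v p + D.α' v t) (0 + D.α' v s) :=
          le_min (by linarith) (by linarith)
        have h3 : 0 ≤ min (D.α v r + D.α' v t) (0 + 0) := le_min (by linarith) (by linarith)
        linarith
      · intro _
        show 0 + D.α' v t ≤ min (D.α v p + 0) (D.α v r + D.α' v s) +
          min (D.α v p + D.α' v t) (0 + D.α' v s) + min (D.α v r + D.α' v t) (0 + 0)
        have h1 : 0 ≤ min (D.α v p + 0) (D.α v r + D.α' v s) :=
          le_min (by linarith) (by linarith)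
        have h2 : D.α' v t ≤ min (D.α v p + D.α' v t) (0 + D.α' v s) :=
          le_min (by linarith) (by linarith)
        have h3 : 0 ≤ min (D.α v r + D.α' v t) (0 + 0) := le_min (by linarith) (by linarith)
        linarith
      · intro hne; exact absurd hps hne
  · by_cases hrs : r = s
    · by_cases htp : t = p
      · obtain ⟨l, hlp, hls⟩ := exists_third hq p s
        refine ⟨![H p, H l, H s], ![D.α v p, 0, D.α v r], ![D.α' v t, 0, D.α' v s],
          ⟨hH p l s hlp.symm hps hls, ?_, ?_, ?_, ?_, ?_, ?_, ?_, ?_⟩⟩
        · intro i; fin_cases i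
          · exact D.lp_α v p
          · exact D.lp_zero v _
          · subst hrs; exact D.lp_α v _
        · intro i; fin_cases i
          · subst htp; exact D.lp_α' v _
          · exact D.lp_zero' v _
          · exact D.lp_α' v s
        · intro i; fin_cases i
          · exact hp0
          · exact le_rfl
          · exact hb0
        · intro i; fin_cases i
          · exact hb0'
          · exact le_rfl
          · exact hs0'
        · rw [h.sum]
          show _ ≤ D.α v p + D.α' v t + (0 + 0) + (D.α v r + D.α' v s)
          linarith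
        · show (0 : ℝ) + 0 ≤ min (D.α v p + 0) (0 + D.α' v t) +
            min (D.α v p + D.α' v s) (D.α v r + D.α' v t) + min (0 + D.α' v s) (D.α v r + 0)
          have h1 : 0 ≤ min (D.α v p + 0) (0 + D.α' v t) := le_min (by linarith) (by linarith)
          have h2 : 0 ≤ min (D.α v p + D.α' v s) (D.α v r + D.α' v t) :=
            le_min (by linarith) (by linarith)
          have h3 : 0 ≤ min (0 + D.α' v s) (D.α v r + 0) := le_min (by linarith) (by linarith)
          linarith
        · intro he; exact absurd he hps
        · intro _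
          refine ⟨rfl, rfl, ?_, ?_⟩
          · show D.α v p + D.α' v t ≤ _
            rw [htp]
          · show D.α v r + D.α' v s ≤ _
            rw [hrs]
      · refine ⟨![H p, H t, H s], ![D.α v p, 0, D.α v r], ![0, D.α' v t, D.α' v s],
          ⟨hH p t s (Ne.symm htp) hps h.hst.symm, ?_, ?_, ?_, ?_, ?_, ?_, ?_, ?_⟩⟩
        · intro i; fin_cases i
          · exact D.lp_α v p
          · exact D.lp_zero v _
          · subst hrs; exact D.lp_α v _
        · intro i; fin_cases i
          · exact D.lp_zero' v _
          · exact D.lp_α' v t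
          · exact D.lp_α' v s
        · intro i; fin_cases i
          · exact hp0
          · exact le_rfl
          · exact hb0
        · intro i; fin_cases i
          · exact le_rfl
          · exact hb0'
          · exact hs0'
        · rw [h.sum]
          show _ ≤ D.α v p + 0 + (0 + D.α' v t) + (D.α v r + D.α' v s)
          linarith
        · show (0 : ℝ) + D.α' v t ≤ min (D.α v p + D.α' v t) (0 + 0) +
            min (D.α v p + D.α' v s) (D.α v r + 0) +
            min (0 + D.α' v s) (D.α v r + D.α' v t)
          have h1 : 0 ≤ min (D.α v p + D.α' v t) (0 + 0) := le_min (by linarith) (by linarith)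
          have h2 : 0 ≤ min (D.α v p + D.α' v s) (D.α v r + 0) :=
            le_min (by linarith) (by linarith)
          have h3 : D.α' v t ≤ min (0 + D.α' v s) (D.α v r + D.α' v t) :=
            le_min (by linarith) (by linarith)
          linarith
        · intro he; exact absurd he hps
        · intro _
          refine ⟨rfl, rfl, ?_, ?_⟩
          · show D.α v p + 0 ≤ _
            have := D.α_nonneg' v p
            linarith
          · show D.α v r + D.α' v s ≤ _
            rw [hrs]
    · by_cases htp : t = p
      · refine ⟨![H p, H r, H s], ![D.α v p, D.α v r, 0], ![D.α' v t, 0, D.α' v s],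
          ⟨hH p r s h.hpr hps hrs, ?_, ?_, ?_, ?_, ?_, ?_, ?_, ?_⟩⟩
        · intro i; fin_cases i
          · exact D.lp_α v p
          · exact D.lp_α v r
          · exact D.lp_zero v _
        · intro i; fin_cases i
          · subst htp; exact D.lp_α' v _
          · exact D.lp_zero' v _
          · exact D.lp_α' v s
        · intro i; fin_cases i
          · exact hp0
          · exact hb0
          · exact le_rfl
        · intro i; fin_cases i
          · exact hb0'
          · exact le_rfl
          · exact hs0'
        · rw [h.sum]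
          show _ ≤ D.α v p + D.α' v t + (D.α v r + 0) + (0 + D.α' v s)
          linarith
        · show D.α v r + 0 ≤ min (D.α v p + 0) (D.α v r + D.α' v t) +
            min (D.α v p + D.α' v s) (0 + D.α' v t) + min (D.α v r + D.α' v s) (0 + 0)
          have h1 : D.α v r ≤ min (D.α v p + 0) (D.α v r + D.α' v t) :=
            le_min (by linarith) (by linarith)
          have h2 : 0 ≤ min (D.α v p + D.α' v s) (0 + D.α' v t) :=
            le_min (by linarith) (by linarith)
          have h3 : 0 ≤ min (D.α v r + D.α' v s) (0 + 0) := le_min (by linarith) (by linarith)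
          linarith
        · intro he; exact absurd he hps
        · intro _
          refine ⟨rfl, rfl, ?_, ?_⟩
          · show D.α v p + D.α' v t ≤ _
            rw [htp]
          · show 0 + D.α' v s ≤ _
            have := D.α_nonneg v s
            linarith
      · obtain ⟨K, hK, ⟨a, b, hK1⟩, ⟨a', b', hK2⟩⟩ := exists_K hH h.hpr h.hst hps hrs htp
        refine ⟨![H p, K, H s], ![D.α v p, D.α v r, 0], ![0, D.α' v t, D.α' v s],
          ⟨hK, ?_, ?_, ?_, ?_, ?_, ?_, ?_, ?_⟩⟩
        · intro i; fin_cases i
          · exact D.lp_α v p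
          · exact lp_comb D v (D.lp_mono v _ _ _ h.le (D.lp_α v p)) (D.lp_α v r) ⟨a, b, hK1⟩
          · exact D.lp_zero v _
        · intro i; fin_cases i
          · exact D.lp_zero' v _
          · exact lp_comb D.swap v (D.lp_mono' v _ _ _ h.le' (D.lp_α' v s)) (D.lp_α' v t)
              ⟨a', b', hK2⟩
          · exact D.lp_α' v s
        · intro i; fin_cases i
          · exact hp0
          · exact hb0
          · exact le_rfl
        · intro i; fin_cases i
          · exact le_rfl
          · exact hb0'
          · exact hs0'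
        · rw [h.sum]
          show _ ≤ D.α v p + 0 + (D.α v r + D.α' v t) + (0 + D.α' v s)
          linarith
        · show D.α v r + D.α' v t ≤ min (D.α v p + D.α' v t) (D.α v r + 0) +
            min (D.α v p + D.α' v s) (0 + 0) + min (D.α v r + D.α' v s) (0 + D.α' v t)
          have h1 : D.α v r ≤ min (D.α v p + D.α' v t) (D.α v r + 0) :=
            le_min (by linarith) (by linarith)
          have h2 : 0 ≤ min (D.α v p + D.α' v s) (0 + 0) := le_min (by linarith) (by linarith)
          have h3 : D.α' v t ≤ min (D.α v r + D.α' v s) (0 + D.α' v t) :=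
            le_min (by linarith) (by linarith)
          linarith
        · intro he; exact absurd he hps
        · intro _
          refine ⟨rfl, rfl, ?_, ?_⟩
          · show D.α v p + 0 ≤ _
            have := D.α_nonneg' v p
            linarith
          · show 0 + D.α' v s ≤ _
            have := D.α_nonneg v s
            linarith

end

end Pool.Agent.Y734
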