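import Mathlib
import Pool.Agent.Y734.Abs.Five
import Pool.Agent.Y734.EF.Main
import Pool.Agent.Y734.PRIN.Main
import Pool.Agent.Y734.DET.Main
import Pool.Agent.Y734.REF.Ref

/-!
# The equation of the surface for `finrank A1 = 4`
-/

set_option autoImplicit false

namespace Pool.Agent.Y734

open MvPolynomial

section

variable {Ω : Type} [Field Ω] [Algebra ℚ Ω]

lemma lf_single (P : Fin 3 → Ω) (j : Fin 3) : lf P (Pi.single j 1) = P j := by
  unfold lf
  rw [Finset.sum_eq_single j]
  · simp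
  · intro i _ hi; simp [Pi.single_apply, hi]
  · intro h; exact absurd (Finset.mem_univ _) h

/-- the affine coordinates of the generic point are algebraically independent -/
lemma alg_ind {P : Fin 3 → Ω}
    (gen : ∀ (n : ℕ) (Φ : MvPolynomial (Fin 3) ℚ), Φ.IsHomogeneous n → Φ ≠ 0 → aeval P Φ ≠ 0) :
    AlgebraicIndependent ℚ (fun j : Fin 2 => P j.succ / P 0) := by
  have hP0 : P 0 ≠ 0 := by
    rw [← lf_single P 0]
    exact lf_ne gen (by intro h; have := congrFun h 0; simp at this)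
  rw [algebraicIndependent_iff]
  intro p hp
  by_contra hne
  set d := p.totalDegree with hd
  set Φ : MvPolynomial (Fin 3) ℚ := ∑ m ∈ p.support, C (coeff m p) *
    (X 0 ^ (d - (m 0 + m 1)) * (X 1 ^ m 0 * X 2 ^ m 1)) with hΦ
  have hle : ∀ m ∈ p.support, m 0 + m 1 ≤ d := by
    intro m hm
    have := le_totalDegree hm
    rw [Finsupp.sum_fintype _ _ (by simp), Fin.sum_univ_two] at this
    exact this
  refine gen d Φ ?_ ?_ ?_
  · refine IsHomogeneous.sum _ _ _ fun m hm => ?_
    have h1 : (C (coeff m p) : MvPolynomial (Fin 3) ℚ).IsHomogeneous 0 := isHomogeneous_C _ _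
    have h2 := ((isHomogeneous_X ℚ (0 : Fin 3)).pow (d - (m 0 + m 1)))
    have h3 := ((isHomogeneous_X ℚ (1 : Fin 3)).pow (m 0))
    have h4 := ((isHomogeneous_X ℚ (2 : Fin 3)).pow (m 1))
    have h5 := h1.mul (h2.mul (h3.mul h4))
    have e : 0 + (1 * (d - (m 0 + m 1)) + (1 * m 0 + 1 * m 1)) = d := by
      have := hle m hm
      omega
    rwa [e] at h5
  · intro h0
    apply hne
    have h1 := congrArg (aeval (![1, X 0, X 1] : Fin 3 → MvPolynomial (Fin 2) ℚ)) h0
    rw [map_zero, hΦ, map_sum] at h1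
    rw [← h1]
    conv_lhs => rw [p.as_sum]
    refine Finset.sum_congr rfl fun m _ => ?_
    simp only [map_mul, map_pow, aeval_X, aeval_C, algebraMap_eq, Matrix.cons_val_zero,
      Matrix.cons_val_one, one_pow, one_mul]
    rw [monomial_eq, Finsupp.prod_fintype _ _ (by simp), Fin.prod_univ_two]
    rfl
  · rw [hΦ, map_sum]
    have h1 : P 0 ^ d * aeval (fun j : Fin 2 => P j.succ / P 0) p = 0 := by rw [hp, mul_zero]
    rw [← h1, aeval_def, eval₂_eq', Finset.mul_sum]
    refine Finset.sum_congr rfl fun m hm => ?_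
    simp only [map_mul, map_pow, aeval_X, aeval_C, Fin.prod_univ_two]
    have e : P 0 ^ d = P 0 ^ (d - (m 0 + m 1)) * P 0 ^ (m 0) * P 0 ^ (m 1) := by
      rw [← pow_add, ← pow_add]
      congr 1
      have := hle m hm
      omega
    rw [e, div_pow, div_pow]
    have h2 : P 0 ^ (m 0) ≠ 0 := pow_ne_zero _ hP0
    have h3 : P 0 ^ (m 1) ≠ 0 := pow_ne_zero _ hP0
    show _ = _ * (_ * (P 1 ^ m 0 / _ * (P 2 ^ m 1 / _)))
    field_simp

end

section

variable {V : Type} [Fintype V] {q : ℕ} {H : Fin q → Fin 3 → ℚ} {Ω : Type} [Field Ω] [Algebra ℚ Ω]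

lemma det_bil (c : Ω) (P P' : Fin 3 → Ω) (g : Fin 3 → Fin 3 → ℚ) :
    Matrix.det (Matrix.of fun i j => bil c P P' (g i) (g j)) = 0 := by
  rw [Matrix.det_fin_three]
  simp only [Matrix.of_apply, bil]
  ring

/-- existence of the equation -/
lemma exists_rel (D : HD V H Ω) (x : Fin 4 → Ω) (hx : LinearIndependent ℚ x)
    (hspan : Submodule.span ℚ (Set.range x) = A1 D.c D.P D.P') :
    ∃ (e : ℕ) (F : MvPolynomial (Fin 4) ℚ), Rel x e F := by
  have h20 : (2 : Ω) ≠ 0 := by
    have : CharZero Ω := algebraRat.charZero Ω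
    exact two_ne_zero
  have hmem : ∀ G G', bil D.c D.P D.P' G G' ∈ Submodule.span ℚ (Set.range x) := by
    intro G G'
    rw [hspan]
    exact bil_mem _ _ _ _ _
  have hcoef : ∀ G G', ∃ a : Fin 4 → ℚ, ∑ i, algebraMap ℚ Ω (a i) * x i =
      bil D.c D.P D.P' G G' := by
    intro G G'
    obtain ⟨a, ha⟩ := (Submodule.mem_span_range_iff_exists_fun ℚ).1 (hmem G G')
    exact ⟨a, by simpa only [Algebra.smul_def] using ha⟩
  have hP0 : D.P 0 ≠ 0 := by
    rw [← lf_single D.P 0]
    exact lf_ne D.gen (by intro h; have := congrFun h 0; simp at this)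
  have hP0' : D.P' 0 ≠ 0 := by
    rw [← lf_single D.P' 0]
    exact lf_ne D.gen' (by intro h; have := congrFun h 0; simp at this)
  refine PRIN.prin Ω x (fun j : Fin 2 => D.P j.succ / D.P 0) (alg_ind D.gen) ?_ ?_
  · intro j
    obtain ⟨a, ha⟩ := hcoef (Pi.single 0 1) (Pi.single 0 1)
    obtain ⟨b, hb⟩ := hcoef (Pi.single 0 1) (Pi.single j.succ 1)
    obtain ⟨d, hd⟩ := hcoef (Pi.single j.succ 1) (Pi.single j.succ 1)
    refine ⟨a, fun i => -2 * b i, d, ?_, ?_⟩
    · rw [ha]
      exact bil_self_ne D.c_ne D.gen D.gen' (by intro h; have := congrFun h 0; simp at this)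
    · have hb' : ∑ i, algebraMap ℚ Ω (-2 * b i) * x i = -2 * ∑ i, algebraMap ℚ Ω (b i) * x i := by
        rw [Finset.mul_sum]
        refine Finset.sum_congr rfl fun i _ => ?_
        rw [map_mul, map_neg, map_ofNat]
        ring
      rw [ha, hb', hb, hd]
      simp only [bil, lf_single]
      field_simp
      ring
  · refine DET.det Ω x hx (fun i j => bil D.c D.P D.P' (Pi.single i 1) (Pi.single j 1))
      (fun i j => bil_comm _ _ _ _ _) (det_bil _ _ _ _) (fun i j => hmem _ _) ?_ ?_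
    · intro G hG
      have : ∑ i, ∑ j, algebraMap ℚ Ω (G i * G j) *
          bil D.c D.P D.P' (Pi.single i 1) (Pi.single j 1) = bil D.c D.P D.P' G G := by
        simp only [Fin.sum_univ_three, bil, lf_single, map_mul]
        simp only [lf, Fin.sum_univ_three]
        ring
      rw [this]
      exact bil_self_ne D.c_ne D.gen D.gen' hG
    · have hfd : FiniteDimensional ℚ (Submodule.span ℚ
          {bil D.c D.P D.P' (Pi.single 0 1) (Pi.single 0 1),
            bil D.c D.P D.P' (Pi.single 0 1) (Pi.single 1 1),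
            bil D.c D.P D.P' (Pi.single 1 1) (Pi.single 1 1)}) :=
        FiniteDimensional.span_of_finite ℚ (by simp)
      have hli : LinearIndependent ℚ ![(Pi.single 0 1 : Fin 3 → ℚ), Pi.single 1 1] := by
        have h := linInd_single.comp (![0, 1] : Fin 2 → Fin 3) (by decide)
        have e : ((fun i : Fin 3 => (Pi.single i 1 : Fin 3 → ℚ)) ∘ (![0, 1] : Fin 2 → Fin 3)) =
            ![(Pi.single 0 1 : Fin 3 → ℚ), Pi.single 1 1] := by
          funext i
          fin_cases i <;> rfl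
        rwa [e] at h
      refine finrank_pair D.c_ne D.gen D.gen' hli _ ?_ ?_ ?_ <;>
        exact Submodule.subset_span (by simp)

lemma rel_two_le {x : Fin 4 → Ω} (hx : LinearIndependent ℚ x) {e : ℕ}
    {F : MvPolynomial (Fin 4) ℚ} (h : Rel x e F) : 2 ≤ e := by
  obtain ⟨hhom, hirr, hF, _⟩ := h
  by_contra hlt
  push Not at hlt
  have he : e = 0 ∨ e = 1 := by omega
  rcases he with rfl | rfl
  · have h1 : F = C (coeff 0 F) := by
      have := (totalDegree_eq_zero_iff_eq_C (p := F)).1 (by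
        have := hhom.totalDegree_le
        omega)
      exact this
    rw [h1, aeval_C] at hF
    have h2 : coeff 0 F = 0 := by
      by_contra hne
      exact (map_ne_zero_iff _ (algebraMap ℚ Ω).injective).2 hne hF
    rw [h2, C_0] at h1
    exact hirr.ne_zero h1
  · obtain ⟨l, hl⟩ := REF.lin_of_hom F hhom
    rw [hl] at hF
    simp only [map_sum, map_mul, aeval_C, aeval_X] at hF
    rw [Fintype.linearIndependent_iff] at hx
    have := hx l (by simpa only [Algebra.smul_def] using hF)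
    apply hirr.ne_zero
    rw [hl]
    simp [this]

lemma lexmin_zero {x : Fin 4 → Ω} {e : ℕ} (he : 2 ≤ e) {F : MvPolynomial (Fin 4) ℚ}
    (h : Rel x e F) {m : Fin 4 →₀ ℕ} (hm : LexMin F m) : m 0 = 0 := by
  obtain ⟨hhom, hirr, hF, _⟩ := h
  by_contra hne
  have hall : ∀ m' ∈ F.support, m' 0 ≠ 0 := by
    intro m' hm'
    by_cases hmm : m' = m
    · rw [hmm]; exact hne
    · obtain ⟨i, hi, hj⟩ := hm.2 m' hm' hmm
      rcases Fin.eq_zero_or_eq_succ i with h0 | ⟨j, hj'⟩
      · rw [h0] at hi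
        omega
      · have := hj 0 (by rw [hj']; exact Fin.succ_pos j)
        omega
  have hdvd : (X 0 : MvPolynomial (Fin 4) ℚ) ∣ F := by
    rw [F.as_sum]
    refine Finset.dvd_sum fun m' hm' => ?_
    exact X_dvd_monomial.2 (Or.inr (hall m' hm'))
  obtain ⟨Q, hQ⟩ := hdvd
  rcases hirr.isUnit_or_isUnit hQ with h1 | h1
  · exact (X_prime (R := ℚ) (i := (0 : Fin 4))).not_unit h1
  · have hd := hhom.totalDegree hirr.ne_zero
    have h2 := totalDegree_mul_of_isDomain (f := (X 0 : MvPolynomial (Fin 4) ℚ)) (g := Q)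
      (X_ne_zero 0) h1.ne_zero
    rw [← hQ, hd, totalDegree_X] at h2
    have h3 : Q.totalDegree = 0 := by
      obtain ⟨u, hu⟩ := h1
      obtain ⟨Q', hQ'⟩ : ∃ Q', Q * Q' = 1 := ⟨(u⁻¹ : (MvPolynomial (Fin 4) ℚ)ˣ), by
        rw [← hu]; exact Units.mul_inv u⟩
      have h4 : Q ≠ 0 := left_ne_zero_of_mul (by rw [hQ']; exact one_ne_zero)
      have h5 : Q' ≠ 0 := right_ne_zero_of_mul (by rw [hQ']; exact one_ne_zero)
      have h6 := totalDegree_mul_of_isDomain h4 h5
      rw [hQ', totalDegree_one] at h6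
      omega
    omega

lemma lexmin_deg {x : Fin 4 → Ω} {e : ℕ} {F : MvPolynomial (Fin 4) ℚ}
    (h : Rel x e F) {m : Fin 4 →₀ ℕ} (hm : LexMin F m) : m 0 + m 1 + m 2 + m 3 = e := by
  have h1 := h.1 (mem_support_iff.1 hm.1)
  rw [← h1]
  simp [Finsupp.weight_apply, Finsupp.sum_fintype, Fin.sum_univ_four]

end

end Pool.Agent.Y734
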